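import Mathlib
import Pool.Agent.Work.MP_3a3367_rgs.All
import Pool.Agent.Work.MP_3a3367_rgs.Final

set_option autoImplicit false

/-- For all `c > 2` and `0 < ε < 1` there is `κ > 0` such that for all integers `p ≥ 2`, reals `x ≥ 2` and
`T ≥ 1` with `T = κ √x / (p² (log x)^100)` or `T = κ x^((1-ε)/2) / p`:
(1) for every abelian group `G`, every completely additive `f : ℕ → G` with `f p ≠ 0` and every `g : G` at
least `T` integers `n` of `(x, x + c √x]` have `f n ≠ g`;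
(2) if a finite set `S` of integers of `(x, x + c √x]` misses fewer than `T` of them, then `p` is a product of
powers `n ^ (e n)`, `n ∈ S`, with integer exponents of sum `0`. -/
theorem Pool.Agent.Results.MP_3a3367_nt.AdditiveValues.result :
    ∀ c ε : ℝ, 2 < c → 0 < ε → ε < 1 → ∃ κ : ℝ, 0 < κ ∧ ∀ (p : ℕ) (x T : ℝ), 2 ≤ p → 2 ≤ x → 1 ≤ T →
      (T = κ * √x / ((p : ℝ) ^ 2 * (Real.log x) ^ 100) ∨ T = κ * x ^ ((1 - ε) / 2) / p) →
      (∀ (G : Type) [AddCommGroup G] (f : ℕ → G),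
        (∀ a b, 1 ≤ a → 1 ≤ b → f (a * b) = f a + f b) → f p ≠ 0 → ∀ g : G,
        T ≤ ({n : ℕ | x < n ∧ n ≤ x + c * √x ∧ f n ≠ g}.ncard : ℝ)) ∧
      (∀ S : Finset ℕ, (∀ n ∈ S, x < (n : ℝ) ∧ (n : ℝ) ≤ x + c * √x) →
        ({n : ℕ | x < n ∧ n ≤ x + c * √x ∧ n ∉ S}.ncard : ℝ) < T →
        ∃ e : ℕ → ℤ, ∑ n ∈ S, e n = 0 ∧ (p : ℚ) = ∏ n ∈ S, (n : ℚ) ^ (e n)) :=
  Pool.RGS.p_FNL Pool.RGS.all_PPA Pool.RGS.all_PPB Pool.RGS.all_DUH
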