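import Pool.Agent.Work.MP_3a3367_nt_log.Main

/-!
# Moving `O(log N)` sieving primes: survivors in windows shorter than `√n`
-/

set_option autoImplicit false

namespace Pool.Agent.Results.MP_3a3367_nt.LogMoves

open Filter MeasureTheory ProbabilityTheory

universe u

/-- The integers `n ≥ 2` which are not congruent to `a p` modulo `p` for any prime `p ≤ √n`. If
`a = 0` these are exactly the primes, see `sieve_zero`. -/
def Sieve (a : ℕ → ℤ) : Set ℕ :=
  {n | 2 ≤ n ∧ ∀ p : ℕ, p.Prime → p * p ≤ n → ¬ (n : ℤ) ≡ a p [ZMOD p]}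

/-- The natural numbers in `(n, n + n ^ (1/2 - δ)]`. -/
def window (δ : ℝ) (n : ℕ) : Set ℕ := {m | n < m ∧ (m : ℝ) ≤ n + (n : ℝ) ^ (1 / 2 - δ)}

/-- The events `T p` (the prime `p` is moved) are independent, and for all large primes `p` the
probability of `T p` is at least `K log p / p` and at most `p ^ (κ - 1)`. -/
structure RandomPrimes {Ω : Type u} [MeasurableSpace Ω] (μ : Measure Ω) (T : ℕ → Set Ω)
    (K κ : ℝ) : Prop where
  meas : ∀ p, MeasurableSet (T p)
  indep : iIndepSet T μ
  lower : ∀ᶠ p : ℕ in atTop, p.Prime → K * (Real.log p / p) ≤ μ.real (T p)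
  upper : ∀ᶠ p : ℕ in atTop, p.Prime → μ.real (T p) ≤ (p : ℝ) ^ (κ - 1)

/-- The primes whose class `a p` modulo `p` is not the class `0` of the sieve of Eratosthenes are
exactly the primes in `T`. -/
def Moves (a : ℕ → ℤ) (T : Set ℕ) : Prop := ∀ p : ℕ, p.Prime → (¬ (p : ℤ) ∣ a p ↔ p ∈ T)

/-- After moving the primes in `T` to arbitrary classes different from `0`, the sieve leaves at
least `n ^ κ` integers in `(n, n + n ^ (1/2 - δ)]` for all large `n`; how large `n` has to be does
not depend on the choice of the classes. -/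
def Repairs (κ δ : ℝ) (T : Set ℕ) : Prop :=
  ∃ n₀ : ℕ, ∀ a : ℕ → ℤ, Moves a T → ∀ n : ℕ, n₀ ≤ n →
    (n : ℝ) ^ κ ≤ ((Sieve a ∩ window δ n).ncard : ℝ)

/-- For the classes `0` the sieve is the sieve of Eratosthenes. -/
theorem sieve_zero : Sieve 0 = {p : ℕ | p.Prime} := by
  ext n
  constructor
  · rintro ⟨h1, h2⟩
    by_contra hn
    have hn' : ¬ n.Prime := hn
    have h3 := Nat.minFac_sq_le_self (by omega) hn'
    have h4 : (n.minFac).Prime := Nat.minFac_prime (by omega)
    apply h2 n.minFac h4 (by rw [← pow_two]; exact h3)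
    rw [Int.modEq_iff_dvd]
    simp only [Pi.zero_apply, zero_sub, dvd_neg]
    exact_mod_cast Nat.minFac_dvd n
  · intro hn
    have hn' : n.Prime := hn
    refine ⟨hn'.two_le, fun p hp hpn h => ?_⟩
    rw [Int.modEq_iff_dvd] at h
    simp only [Pi.zero_apply, zero_sub, dvd_neg] at h
    have h1 : p ∣ n := by exact_mod_cast h
    have h2 := (Nat.prime_dvd_prime_iff_eq hp hn').1 h1
    rw [h2] at hpn
    have := hn'.one_lt
    nlinarith

/-- There are constants `K, κ, δ > 0` such that for a random set `T` of primes which contains the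
large primes `p` independently with probabilities between `K log p / p` and `p ^ (κ - 1)`, almost
surely: `T` has at most twice the expected number of elements up to `N` for all large `N`, and for
all large `n`, whatever the classes different from `0` to which the primes in `T` are moved, the
sieve of Eratosthenes with these primes moved leaves at least `n ^ κ` integers in
`(n, n + n ^ (1/2 - δ)]`. In particular there is a fixed such set `T` with at most `C log N`
elements up to `N`. -/
theorem result : ∃ K κ δ : ℝ, 0 < κ ∧ 0 < δ ∧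
    (∀ (Ω : Type u) [MeasurableSpace Ω] (μ : Measure Ω) [IsProbabilityMeasure μ]
      (T : ℕ → Set Ω), RandomPrimes μ T K κ → ∀ᵐ ω ∂μ,
        (∀ᶠ N : ℕ in atTop, ({p : ℕ | p.Prime ∧ p ≤ N ∧ ω ∈ T p}.ncard : ℝ) ≤
          2 * ∑ p ∈ (Finset.range (N + 1)).filter Nat.Prime, μ.real (T p)) ∧
        Repairs κ δ {p | ω ∈ T p}) ∧
    ∃ (C : ℝ) (T : Set ℕ), (∀ p ∈ T, p.Prime) ∧
      (∀ N : ℕ, 2 ≤ N → ((T ∩ Set.Iic N).ncard : ℝ) ≤ C * Real.log N) ∧ Repairs κ δ T := by
  classical
  obtain ⟨K, κ, δ, hκ, hδ, h1, C, T, hT, hC, n₀, h2⟩ :=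
    Pool.Agent.Work.MP_3a3367_nt_log.main.{u}
  refine ⟨K, κ, δ, hκ, hδ, ?_, C, T, hT, hC, n₀, ?_⟩
  · intro Ω _ μ _ T hT
    filter_upwards [h1 Ω μ T hT.meas hT.indep (by
      filter_upwards [hT.lower, hT.upper] with p h3 h4 hp
      exact ⟨h3 hp, h4 hp⟩)] with ω hω
    obtain ⟨hω1, n₁, hω2⟩ := hω
    refine ⟨?_, n₁, ?_⟩
    · filter_upwards [hω1] with N hN
      refine le_trans (le_of_eq ?_) hN
      have h5 : {p : ℕ | p.Prime ∧ p ≤ N ∧ ω ∈ T p} =
          ((Pool.Agent.Work.MP_3a3367_nt_log.MV T N ω : Finset ℕ) : Set ℕ) := by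
        ext p
        unfold Pool.Agent.Work.MP_3a3367_nt_log.MV
        simp only [Finset.coe_filter, Finset.mem_filter, Finset.mem_range, Nat.floor_natCast,
          Set.mem_ofPred_eq, Nat.lt_succ_iff]
        tauto
      rw [h5, Set.ncard_coe_finset]
    · intro a ha n hn
      refine hω2 a (fun p hp => ?_) n hn
      have := ha p hp
      simp only [Set.mem_ofPred_eq] at this
      tauto
  · intro a ha n hn
    refine h2 a (fun p hp => ?_) n hn
    have := ha p hp
    tauto

end Pool.Agent.Results.MP_3a3367_nt.LogMoves
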