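import Pool.Agent.Work.MP_3a3367_nt_h29.FIN
import Pool.Agent.Work.MP_3a3367_nt_h29.NEG

/-!
# Random residue classes and short intervals: the threshold for windows of length `c √n`
-/

set_option autoImplicit false

namespace Pool.Agent.Results.MP_3a3367_nt.RandomnessThreshold

open Filter MeasureTheory ProbabilityTheory

universe u

/-- The integers `n ≥ 2` which are not congruent to `a p` modulo `p` for any prime `p ≤ √n`. If
`a = 0` these are exactly the primes, see `sieve_zero`. -/
def Sieve (a : ℕ → ℤ) : Set ℕ :=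
  {n | 2 ≤ n ∧ ∀ p : ℕ, p.Prime → p * p ≤ n → ¬ (n : ℤ) ≡ a p [ZMOD p]}

/-- The natural numbers in `(n, n + c √n]`. For `n = (2k - 1)^2` the interval between the odd
squares `(2k - 1)^2` and `(2k + 1)^2` contains `window 4 n` and lies in `window 8 n`. -/
def window (c : ℝ) (n : ℕ) : Set ℕ := {m | n < m ∧ (m : ℝ) ≤ n + c * Real.sqrt n}

/-- The `a p` are independent random integers, and for all large primes `p` every residue class
modulo `p` has probability at most `1 - p ^ (-η)`. -/
structure Spread {Ω : Type u} [MeasurableSpace Ω] (μ : Measure Ω) (a : ℕ → Ω → ℤ) (η : ℝ) :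
    Prop where
  meas : ∀ p, Measurable (a p)
  indep : iIndepFun a μ
  atom : ∀ᶠ p : ℕ in atTop, p.Prime → ∀ c : ℤ,
    μ.real {ω | a p ω ≡ c [ZMOD p]} ≤ 1 - (p : ℝ) ^ (-η)

/-- For the classes `0` the sieve is the sieve of Eratosthenes. -/
theorem sieve_zero : Sieve 0 = {p : ℕ | p.Prime} := by
  ext n
  constructor
  · rintro ⟨h1, h2⟩
    by_contra hn
    have hn' : ¬ n.Prime := hn
    have h3 := Nat.minFac_sq_le_self (by omega) hn'
    have h4 : (n.minFac).Prime := Nat.minFac_prime (by omega)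
    apply h2 n.minFac h4 (by rw [← pow_two]; exact h3)
    rw [Int.modEq_iff_dvd]
    simp only [Pi.zero_apply, zero_sub, dvd_neg]
    exact_mod_cast Nat.minFac_dvd n
  · intro hn
    have hn' : n.Prime := hn
    refine ⟨hn'.two_le, fun p hp hpn h => ?_⟩
    rw [Int.modEq_iff_dvd] at h
    simp only [Pi.zero_apply, zero_sub, dvd_neg] at h
    have h1 : p ∣ n := by exact_mod_cast h
    have h2 := (Nat.prime_dvd_prime_iff_eq hp hn').1 h1
    rw [h2] at hpn
    have := hn'.one_lt
    nlinarith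

/-- If `η < 1` then for all independent classes with atoms at most `1 - p ^ (-η)` the set left by
the sieve almost surely meets all windows `(n, n + c √n]`, `n` large, for every `c > 0`, even in
`n ^ ((1 - η) / 2 - ε)` points. If `η > 1` then there are such classes for which almost surely, for
every `C`, infinitely many windows `(n, n + C √n]` with `n` an odd square contain no point of the
set. -/
theorem result (η : ℝ) (hη : 0 < η) :
    (η < 1 → ∀ (Ω : Type u) [MeasurableSpace Ω] (μ : Measure Ω) [IsProbabilityMeasure μ]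
      (a : ℕ → Ω → ℤ), Spread μ a η → ∀ᵐ ω ∂μ, ∀ c ε : ℝ, 0 < c → 0 < ε → ∀ᶠ n : ℕ in atTop,
        (n : ℝ) ^ ((1 - η) / 2 - ε) ≤ (((Sieve fun p => a p ω) ∩ window c n).ncard : ℝ)) ∧
    (1 < η → ∃ (Ω : Type) (_ : MeasurableSpace Ω) (μ : Measure Ω) (_ : IsProbabilityMeasure μ)
      (a : ℕ → Ω → ℤ), Spread μ a η ∧ ∀ᵐ ω ∂μ, ∀ C : ℝ, ∃ᶠ k : ℕ in atTop,
        (Sieve fun p => a p ω) ∩ window C ((2 * k + 1) ^ 2) = ∅) := by
  have hW : ∀ (b : ℕ → ℤ) (c : ℝ) (n : ℕ), Sieve b ∩ window c n =
      Pool.Agent.Work.MP_3a3367_nt_h29.Win (Pool.Agent.Work.MP_3a3367_nt_h29.Sieve b) c n := by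
    intro b c n
    ext m
    constructor
    · rintro ⟨h1, h2, h3⟩
      exact ⟨h2, h3, h1⟩
    · rintro ⟨h1, h2, h3⟩
      exact ⟨h3, h1, h2⟩
  constructor
  · intro hη1 Ω _ μ _ a ha
    have h := Pool.Agent.Work.MP_3a3367_nt_h29.fin ha.meas ha.indep η hη hη1 ha.atom
    filter_upwards [h] with ω hω
    intro c ε hc hε
    filter_upwards [hω c ε hc hε] with n hn
    rw [hW]
    exact hn
  · intro hη1
    obtain ⟨Ω, i1, μ, i2, a, h1, h2, h3, h4⟩ := Pool.Agent.Work.MP_3a3367_nt_h29.neg η hη1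
    refine ⟨Ω, i1, μ, i2, a, ⟨h1, h2, Eventually.of_forall h3⟩, ?_⟩
    filter_upwards [h4] with ω hω
    intro C
    refine (hω C).mono fun k hk => ?_
    rw [hW]
    exact hk

end Pool.Agent.Results.MP_3a3367_nt.RandomnessThreshold
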