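import Pool.Agent.Work.MP_3a3367_nt_h29b.FIN2

/-!
# The sieve of Eratosthenes, exact below `m ^ θ`, with moved classes above
-/

set_option autoImplicit false

namespace Pool.Agent.Results.MP_3a3367_nt.SemiRandomSieve

open Filter MeasureTheory ProbabilityTheory

universe u

/-- The integers `m ≥ 2` such that for every prime `p ≤ √m`: `m` is not congruent to `b p` modulo
`p` if `p ≤ m ^ θ`, and `m` is not congruent to `a p` modulo `p` if `p > m ^ θ`. If `a = b = 0`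
these are exactly the primes, see `sieve_zero`. -/
def Sieve (θ : ℝ) (b a : ℕ → ℤ) : Set ℕ :=
  {m | 2 ≤ m ∧ ∀ p : ℕ, p.Prime → p * p ≤ m →
    ((p : ℝ) ≤ (m : ℝ) ^ θ → ¬ (m : ℤ) ≡ b p [ZMOD p]) ∧
    ((m : ℝ) ^ θ < p → ¬ (m : ℤ) ≡ a p [ZMOD p])}

/-- The natural numbers in `(n, n + c √n]`. For `n = (2k - 1)^2` the interval between the odd
squares `(2k - 1)^2` and `(2k + 1)^2` contains `window 4 n`. -/
def window (c : ℝ) (n : ℕ) : Set ℕ := {m | n < m ∧ (m : ℝ) ≤ n + c * Real.sqrt n}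

/-- The `a p` are independent random integers, and for all large primes `p` the class `0` modulo `p`
has probability at most `1 - p ^ (-η)`, every other class has probability at most `1 - δ`. -/
structure Moved {Ω : Type u} [MeasurableSpace Ω] (μ : Measure Ω) (a : ℕ → Ω → ℤ) (η δ : ℝ) :
    Prop where
  meas : ∀ p, Measurable (a p)
  indep : iIndepFun a μ
  atom : ∀ᶠ p : ℕ in atTop, p.Prime →
    μ.real {ω | a p ω ≡ 0 [ZMOD p]} ≤ 1 - (p : ℝ) ^ (-η) ∧
    ∀ c : ℤ, ¬ c ≡ 0 [ZMOD p] → μ.real {ω | a p ω ≡ c [ZMOD p]} ≤ 1 - δ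

/-- For the classes `0` the sieve is the sieve of Eratosthenes. -/
theorem sieve_zero (θ : ℝ) : Sieve θ 0 0 = {p : ℕ | p.Prime} := by
  ext n
  constructor
  · rintro ⟨h1, h2⟩
    by_contra hn
    have hn' : ¬ n.Prime := hn
    have h3 := Nat.minFac_sq_le_self (by omega) hn'
    have h4 : (n.minFac).Prime := Nat.minFac_prime (by omega)
    obtain ⟨h5, h6⟩ := h2 n.minFac h4 (by rw [← pow_two]; exact h3)
    have h7 : (n : ℤ) ≡ (0 : ℕ → ℤ) n.minFac [ZMOD n.minFac] := by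
      rw [Int.modEq_iff_dvd]
      simp only [Pi.zero_apply, zero_sub, dvd_neg]
      exact_mod_cast Nat.minFac_dvd n
    rcases le_or_gt ((n.minFac : ℕ) : ℝ) ((n : ℝ) ^ θ) with h8 | h8
    · exact h5 h8 h7
    · exact h6 h8 h7
  · intro hn
    have hn' : n.Prime := hn
    have key : ∀ p : ℕ, p.Prime → p * p ≤ n → ¬ (n : ℤ) ≡ (0 : ℕ → ℤ) p [ZMOD p] := by
      intro p hp hpn h
      rw [Int.modEq_iff_dvd] at h
      simp only [Pi.zero_apply, zero_sub, dvd_neg] at h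
      have h1 : p ∣ n := by exact_mod_cast h
      have h2 := (Nat.prime_dvd_prime_iff_eq hp hn').1 h1
      rw [h2] at hpn
      have := hn'.one_lt
      nlinarith
    exact ⟨hn'.two_le, fun p hp hpn => ⟨fun _ => key p hp hpn, fun _ => key p hp hpn⟩⟩

/-- Let `0 < θ < 1 / 4`, `0 < η < 1 / 2`, `δ > 0`. For all classes `b p` (for instance `0`) and all
independent random classes `a p` with `Moved μ a η δ`, the sieve almost surely leaves at least
`n ^ (1 / 2 - η - ε)` points in every window `(n, n + c √n]`, `n` large. -/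
theorem result (θ η δ : ℝ) (hθ : 0 < θ) (hθ1 : θ < 1 / 4) (hη : 0 < η) (hη1 : η < 1 / 2)
    (hδ : 0 < δ) (b : ℕ → ℤ) (Ω : Type u) [MeasurableSpace Ω] (μ : Measure Ω)
    [IsProbabilityMeasure μ] (a : ℕ → Ω → ℤ) (ha : Moved μ a η δ) :
    ∀ᵐ ω ∂μ, ∀ c ε : ℝ, 0 < c → 0 < ε → ∀ᶠ n : ℕ in atTop,
      (n : ℝ) ^ (1 / 2 - η - ε) ≤ ((Sieve θ b (fun p => a p ω) ∩ window c n).ncard : ℝ) := by
  have hW : ∀ (a' : ℕ → ℤ) (c : ℝ) (n : ℕ), Sieve θ b a' ∩ window c n =
      Pool.Agent.Work.MP_3a3367_nt_h29.Win (Pool.Agent.Work.MP_3a3367_nt_h29b.Semi θ b a') c n := by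
    intro a' c n
    ext m
    constructor
    · rintro ⟨h1, h2, h3⟩
      exact ⟨h2, h3, h1⟩
    · rintro ⟨h1, h2, h3⟩
      exact ⟨h3, h1, h2⟩
  have h := Pool.Agent.Work.MP_3a3367_nt_h29b.fin2 ha.meas ha.indep b θ η δ hθ hθ1 hη hη1 hδ ha.atom
  filter_upwards [h] with ω hω
  intro c ε hc hε
  filter_upwards [hω c ε hc hε] with n hn
  rw [hW]
  exact hn

end Pool.Agent.Results.MP_3a3367_nt.SemiRandomSieve
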